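import Mathlib

set_option autoImplicit false

namespace Pool.Agent.Lib.MP_a8d5c3_co

/-- three-space -/
abbrev E3 := Fin 3 → ℝ

/-- an affine line of `ℝ^3` -/
def IsLine (l : AffineSubspace ℝ E3) : Prop :=
  (l : Set E3).Nonempty ∧ Module.finrank ℝ l.direction = 1

/-- an affine plane of `ℝ^3` -/
def IsPlane (P : AffineSubspace ℝ E3) : Prop :=
  (P : Set E3).Nonempty ∧ Module.finrank ℝ P.direction = 2

/-- `p` is a joint of the set of lines `L`: three lines of `L` through `p` have linearly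
independent directions. -/
def IsJoint (L : Set (AffineSubspace ℝ E3)) (p : E3) : Prop :=
  ∃ l₁ ∈ L, ∃ l₂ ∈ L, ∃ l₃ ∈ L, p ∈ l₁ ∧ p ∈ l₂ ∧ p ∈ l₃ ∧
    ∃ v₁ ∈ l₁.direction, ∃ v₂ ∈ l₂.direction, ∃ v₃ ∈ l₃.direction,
      LinearIndependent ℝ ![v₁, v₂, v₃]

/-- the number of joints -/
noncomputable def numJoints (L : Set (AffineSubspace ℝ E3)) : ℕ := Set.ncard {p | IsJoint L p}

/-- the set of all intersections of two different members of `H` -/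
def planeLines (H : Set (AffineSubspace ℝ E3)) : Set (AffineSubspace ℝ E3) :=
  {l | ∃ P ∈ H, ∃ Q ∈ H, P ≠ Q ∧ l = P ⊓ Q}

/-- A generic set of planes: a finite set of planes, no two parallel, no three containing a common
line, no four passing through a common point. -/
structure Generic (H : Set (AffineSubspace ℝ E3)) : Prop where
  finite : H.Finite
  plane : ∀ P ∈ H, IsPlane P
  not_parallel : ∀ P ∈ H, ∀ Q ∈ H, P ≠ Q → ¬ P.Parallel Q
  no_three : ∀ P ∈ H, ∀ Q ∈ H, ∀ R ∈ H, P ≠ Q → P ≠ R → Q ≠ R →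
    ¬ ∃ l : AffineSubspace ℝ E3, IsLine l ∧ l ≤ P ∧ l ≤ Q ∧ l ≤ R
  no_four : ∀ P ∈ H, ∀ Q ∈ H, ∀ R ∈ H, ∀ S ∈ H, P ≠ Q → P ≠ R → P ≠ S → Q ≠ R → Q ≠ S → R ≠ S →
    ¬ ∃ p : E3, p ∈ P ∧ p ∈ Q ∧ p ∈ R ∧ p ∈ S

end Pool.Agent.Lib.MP_a8d5c3_co
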