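import Mathlib
import Pool.Agent.Lib.MP_a8d5c3_co.Defs

/-!
Triples of planes that are not in general position.
-/

set_option autoImplicit false

namespace Pool.Agent.Lib.MP_a8d5c3_co

/-- The triples of planes of `H` that are not in general position: three planes of `H` that do not
have exactly one common point, or whose common point lies on a fourth plane of `H`. -/
def badTriples (H : Set (AffineSubspace ℝ E3)) : Set (Finset (AffineSubspace ℝ E3)) :=
  {τ | (τ : Set (AffineSubspace ℝ E3)) ⊆ H ∧ τ.card = 3 ∧
    ¬ ∃ p : E3, (∀ x : E3, (∀ P ∈ τ, x ∈ P) ↔ x = p) ∧ ∀ P ∈ H, p ∈ P → P ∈ τ}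

end Pool.Agent.Lib.MP_a8d5c3_co
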