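import Mathlib
import Pool.Agent.Lib.MP_a8d5c3_co.Defs

set_option autoImplicit false

namespace Pool.Agent.Lib.MP_a8d5c3_co

open AffineSubspace

/-- the linear functional `x ↦ x 0 + t x 1 + t^2 x 2` -/
def phi (t : ℝ) : E3 →ₗ[ℝ] ℝ where
  toFun x := x 0 + t * x 1 + t ^ 2 * x 2
  map_add' x y := by simp only [Pi.add_apply]; ring
  map_smul' r x := by simp only [Pi.smul_apply, smul_eq_mul, RingHom.id_apply]; ring

theorem phi_apply (t : ℝ) (x : E3) : phi t x = x 0 + t * x 1 + t ^ 2 * x 2 := rfl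

/-- the plane `phi t = c` -/
def pl (t c : ℝ) : AffineSubspace ℝ E3 where
  carrier := {x | phi t x = c}
  smul_vsub_vadd_mem' := by
    intro r p₁ p₂ p₃ h₁ h₂ h₃
    simp only [Set.mem_ofPred_eq] at *
    simp only [vsub_eq_sub, vadd_eq_add, map_add, map_smul, map_sub, h₁, h₂, h₃]
    simp

theorem mem_pl {t c : ℝ} {x : E3} : x ∈ pl t c ↔ phi t x = c := Iff.rfl

theorem pt_mem_pl (t c : ℝ) : (![c, 0, 0] : E3) ∈ pl t c := by
  rw [mem_pl, phi_apply]; simp

theorem mem_direction_pl {t c : ℝ} {v : E3} : v ∈ (pl t c).direction ↔ phi t v = 0 := by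
  rw [← AffineSubspace.vadd_mem_iff_mem_direction v (pt_mem_pl t c), mem_pl, vadd_eq_add, map_add,
    mem_pl.mp (pt_mem_pl t c)]
  constructor
  · intro h; linarith
  · intro h; linarith

theorem direction_pl (t c : ℝ) : (pl t c).direction = LinearMap.ker (phi t) := by
  ext v; rw [mem_direction_pl, LinearMap.mem_ker]

theorem finrank_direction_pl (t c : ℝ) : Module.finrank ℝ (pl t c).direction = 2 := by
  rw [direction_pl]
  have h := LinearMap.finrank_range_add_finrank_ker (phi t)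
  have h1 : LinearMap.range (phi t) = ⊤ := by
    rw [LinearMap.range_eq_top]
    intro c
    exact ⟨![c, 0, 0], pt_mem_pl t c⟩
  rw [h1] at h
  have h2 : Module.finrank ℝ (⊤ : Submodule ℝ ℝ) = 1 := by
    rw [finrank_top, Module.finrank_self]
  have h3 : Module.finrank ℝ E3 = 3 := by
    rw [Module.finrank_fintype_fun_eq_card, Fintype.card_fin]
  rw [h2, h3] at h
  have h4 : Module.finrank ℝ (LinearMap.ker (phi t)) = 2 := Nat.add_left_cancel (n := 1) h
  exact h4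

/-- direction vector of the line `pl t c ⊓ pl t' c'` -/
def dv (t t' : ℝ) : E3 := ![t * t', -(t + t'), 1]

theorem phi_dv (u t t' : ℝ) : phi u (dv t t') = (u - t) * (u - t') := by
  rw [phi_apply]; simp only [dv, Matrix.cons_val_zero, Matrix.cons_val_one, Matrix.cons_val]; ring

theorem dv_ne_zero (t t' : ℝ) : dv t t' ≠ 0 := by
  intro h
  have := congrFun h 2
  simp [dv] at this

theorem exists_pt2 {t t' : ℝ} (h : t ≠ t') (c c' : ℝ) : ∃ p : E3, p ∈ pl t c ∧ p ∈ pl t' c' := by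
  refine ⟨![c - t * ((c - c') / (t - t')), (c - c') / (t - t'), 0], ?_, ?_⟩
  · rw [mem_pl, phi_apply]; simp
  · have h' : t - t' ≠ 0 := sub_ne_zero.mpr h
    rw [mem_pl, phi_apply]
    simp only [Matrix.cons_val_zero, Matrix.cons_val_one, Matrix.cons_val]
    field_simp
    ring

theorem ker2 {t t' : ℝ} (h : t ≠ t') {v : E3} (h1 : phi t v = 0) (h2 : phi t' v = 0) :
    v = v 2 • dv t t' := by
  rw [phi_apply] at h1 h2
  have h' : t - t' ≠ 0 := sub_ne_zero.mpr h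
  have e1 : v 1 = -(t + t') * v 2 := by
    have : (t - t') * (v 1 + (t + t') * v 2) = 0 := by linear_combination h1 - h2
    rcases mul_eq_zero.mp this with h3 | h3
    · exact absurd h3 h'
    · linarith
  have e0 : v 0 = t * t' * v 2 := by
    rw [e1] at h1; linarith
  ext i
  fin_cases i
  · simp [dv]; linarith
  · simp [dv]; linarith
  · simp [dv]

theorem mem_direction_line {t t' c c' : ℝ} (h : t ≠ t') {v : E3} :
    v ∈ (pl t c ⊓ pl t' c').direction ↔ ∃ r : ℝ, v = r • dv t t' := by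
  obtain ⟨p, hp, hp'⟩ := exists_pt2 h c c'
  rw [AffineSubspace.direction_inf_of_mem hp hp', Submodule.mem_inf, mem_direction_pl,
    mem_direction_pl]
  constructor
  · rintro ⟨h1, h2⟩
    exact ⟨v 2, ker2 h h1 h2⟩
  · rintro ⟨r, rfl⟩
    constructor
    · rw [map_smul, phi_dv]; simp
    · rw [map_smul, phi_dv]; simp

theorem finrank_line {t t' : ℝ} (h : t ≠ t') (c c' : ℝ) :
    Module.finrank ℝ (pl t c ⊓ pl t' c').direction = 1 := by
  have : (pl t c ⊓ pl t' c').direction = ℝ ∙ (dv t t') := by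
    ext v
    rw [mem_direction_line h, Submodule.mem_span_singleton]
    constructor
    · rintro ⟨r, hr⟩; exact ⟨r, hr.symm⟩
    · rintro ⟨r, hr⟩; exact ⟨r, hr.symm⟩
  rw [this, finrank_span_singleton (dv_ne_zero t t')]

theorem exists_pt3 {t1 t2 t3 : ℝ} (h12 : t1 ≠ t2) (h13 : t1 ≠ t3) (h23 : t2 ≠ t3)
    (c1 c2 c3 : ℝ) : ∃ p : E3, p ∈ pl t1 c1 ∧ p ∈ pl t2 c2 ∧ p ∈ pl t3 c3 := by
  have e12 : t2 - t1 ≠ 0 := sub_ne_zero.mpr h12.symm
  have e13 : t3 - t1 ≠ 0 := sub_ne_zero.mpr h13.symm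
  have e23 : t3 - t2 ≠ 0 := sub_ne_zero.mpr h23.symm
  obtain ⟨a, ha⟩ : ∃ a : ℝ, a * (t2 - t1) = c2 - c1 := ⟨(c2 - c1) / (t2 - t1), by field_simp⟩
  obtain ⟨b, hb⟩ : ∃ b : ℝ, b * ((t3 - t1) * (t3 - t2)) = c3 - c1 - a * (t3 - t1) :=
    ⟨(c3 - c1 - a * (t3 - t1)) / ((t3 - t1) * (t3 - t2)), by field_simp⟩
  refine ⟨![c1 - t1 * a + t1 * t2 * b, a - (t1 + t2) * b, b], ?_, ?_, ?_⟩
  · rw [mem_pl, phi_apply]
    simp only [Matrix.cons_val_zero, Matrix.cons_val_one, Matrix.cons_val]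
    ring
  · rw [mem_pl, phi_apply]
    simp only [Matrix.cons_val_zero, Matrix.cons_val_one, Matrix.cons_val]
    linear_combination ha
  · rw [mem_pl, phi_apply]
    simp only [Matrix.cons_val_zero, Matrix.cons_val_one, Matrix.cons_val]
    linear_combination hb

theorem unique_pt3 {t1 t2 t3 : ℝ} (h12 : t1 ≠ t2) (h13 : t1 ≠ t3) (h23 : t2 ≠ t3)
    {c1 c2 c3 : ℝ} {p q : E3} (hp1 : p ∈ pl t1 c1) (hp2 : p ∈ pl t2 c2) (hp3 : p ∈ pl t3 c3)
    (hq1 : q ∈ pl t1 c1) (hq2 : q ∈ pl t2 c2) (hq3 : q ∈ pl t3 c3) : p = q := by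
  rw [mem_pl] at *
  have a1 : phi t1 (p - q) = 0 := by rw [map_sub, hp1, hq1, sub_self]
  have a2 : phi t2 (p - q) = 0 := by rw [map_sub, hp2, hq2, sub_self]
  have a3 : phi t3 (p - q) = 0 := by rw [map_sub, hp3, hq3, sub_self]
  have h := ker2 h12 a1 a2
  rw [h, map_smul, phi_dv, smul_eq_mul] at a3
  have e13 : t3 - t1 ≠ 0 := sub_ne_zero.mpr h13.symm
  have e23 : t3 - t2 ≠ 0 := sub_ne_zero.mpr h23.symm
  have h0 : (p - q) 2 = 0 := by
    rcases mul_eq_zero.mp a3 with h3 | h3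
    · exact h3
    · exact absurd h3 (mul_ne_zero e13 e23)
  rw [h0, zero_smul] at h
  exact sub_eq_zero.mp h

theorem linInd3 {t1 t2 t3 : ℝ} (h12 : t1 ≠ t2) (h13 : t1 ≠ t3) (h23 : t2 ≠ t3) :
    LinearIndependent ℝ ![dv t1 t2, dv t1 t3, dv t2 t3] := by
  have e12 : t1 - t2 ≠ 0 := sub_ne_zero.mpr h12
  have e13 : t1 - t3 ≠ 0 := sub_ne_zero.mpr h13
  have e23 : t2 - t3 ≠ 0 := sub_ne_zero.mpr h23
  have e21 : t2 - t1 ≠ 0 := sub_ne_zero.mpr h12.symm
  have e31 : t3 - t1 ≠ 0 := sub_ne_zero.mpr h13.symm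
  have e32 : t3 - t2 ≠ 0 := sub_ne_zero.mpr h23.symm
  rw [Fintype.linearIndependent_iff]
  intro g hg
  rw [Fin.sum_univ_three] at hg
  simp only [Matrix.cons_val_zero, Matrix.cons_val_one, Matrix.cons_val] at hg
  have key : ∀ u : ℝ, g 0 * ((u - t1) * (u - t2)) + g 1 * ((u - t1) * (u - t3)) +
      g 2 * ((u - t2) * (u - t3)) = 0 := by
    intro u
    have := congrArg (phi u) hg
    simpa only [map_add, map_smul, phi_dv, smul_eq_mul, map_zero] using this
  have k1 := key t1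
  have k2 := key t2
  have k3 := key t3
  simp only [sub_self, zero_mul, mul_zero, zero_add, add_zero] at k1 k2 k3
  intro i
  fin_cases i
  · rcases mul_eq_zero.mp k3 with h | h
    · exact h
    · exact absurd h (mul_ne_zero e31 e32)
  · rcases mul_eq_zero.mp k2 with h | h
    · exact h
    · exact absurd h (mul_ne_zero e21 e23)
  · rcases mul_eq_zero.mp k1 with h | h
    · exact h
    · exact absurd h (mul_ne_zero e12 e13)

end Pool.Agent.Lib.MP_a8d5c3_co
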