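import Mathlib
import Pool.Agent.Lib.MP_a8d5c3_co.Planes

set_option autoImplicit false

namespace Pool.Agent.Lib.MP_a8d5c3_co

open AffineSubspace

theorem exists_indep : ∃ ξ : ℕ → ℝ, LinearIndependent ℚ ξ := by
  let b := Module.Basis.ofVectorSpace ℚ ℝ
  have h1 : Cardinal.mk (Module.Basis.ofVectorSpaceIndex ℚ ℝ) = Cardinal.continuum := by
    rw [← Real.rank_rat_real]; exact b.mk_eq_rank''
  have : Infinite (Module.Basis.ofVectorSpaceIndex ℚ ℝ) := by
    rw [Cardinal.infinite_iff, h1]; exact Cardinal.aleph0_le_continuum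
  exact ⟨fun n => b (Infinite.natEmbedding _ n),
    b.linearIndependent.comp _ (Infinite.natEmbedding _).injective⟩

variable (ξ : ℕ → ℝ) (s : ℕ)

/-- the `t`-th plane -/
def Pl (t : ℕ) : AffineSubspace ℝ E3 := pl (t : ℝ) (ξ (t / s))

variable {ξ s}

theorem mem_Pl {t : ℕ} {x : E3} : x ∈ Pl ξ s t ↔ phi (t : ℝ) x = ξ (t / s) := Iff.rfl

theorem Pl_injective {t u : ℕ} (h : Pl ξ s t = Pl ξ s u) : t = u := by
  by_contra hne
  have hne' : (t : ℝ) ≠ (u : ℝ) := by exact_mod_cast hne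
  have h1 := congrArg AffineSubspace.direction h
  have h2 : dv (t : ℝ) (t : ℝ) ∈ (Pl ξ s u).direction := by
    rw [← h1]
    exact (mem_direction_pl (c := ξ (t / s))).mpr (by rw [phi_dv]; simp)
  have h3 := (mem_direction_pl (c := ξ (u / s))).mp h2
  rw [phi_dv] at h3
  have : (u : ℝ) - t ≠ 0 := sub_ne_zero.mpr hne'.symm
  exact mul_ne_zero this this h3

theorem pt_mem_Pl (t : ℕ) : (![ξ (t / s), 0, 0] : E3) ∈ Pl ξ s t := pt_mem_pl _ _

theorem sorted_concurrent (hξ : LinearIndependent ℚ ξ) {t1 t2 t3 t4 : ℕ} (h12 : t1 < t2)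
    (h23 : t2 < t3) (h34 : t3 < t4) {p : E3} (hp1 : p ∈ Pl ξ s t1) (hp2 : p ∈ Pl ξ s t2)
    (hp3 : p ∈ Pl ξ s t3) (hp4 : p ∈ Pl ξ s t4) : t1 / s = t4 / s := by
  rw [mem_Pl, phi_apply] at hp1 hp2 hp3 hp4
  set a1 := t1 / s with ha1
  set a2 := t2 / s with ha2
  set a3 := t3 / s with ha3
  set a4 := t4 / s with ha4
  have l12 : a1 ≤ a2 := Nat.div_le_div_right h12.le
  have l23 : a2 ≤ a3 := Nat.div_le_div_right h23.le
  have l34 : a3 ≤ a4 := Nat.div_le_div_right h34.le
  -- weights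
  let w1 : ℚ := -(((t3 : ℚ) - t2) * ((t4 : ℚ) - t2) * ((t4 : ℚ) - t3))
  let w2 : ℚ := ((t3 : ℚ) - t1) * ((t4 : ℚ) - t1) * ((t4 : ℚ) - t3)
  let w3 : ℚ := -(((t2 : ℚ) - t1) * ((t4 : ℚ) - t1) * ((t4 : ℚ) - t2))
  let w4 : ℚ := ((t2 : ℚ) - t1) * ((t3 : ℚ) - t1) * ((t3 : ℚ) - t2)
  have q12 : (0 : ℚ) < (t2 : ℚ) - t1 := by
    have : (t1 : ℚ) < t2 := by exact_mod_cast h12
    linarith
  have q23 : (0 : ℚ) < (t3 : ℚ) - t2 := by
    have : (t2 : ℚ) < t3 := by exact_mod_cast h23
    linarith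
  have q34 : (0 : ℚ) < (t4 : ℚ) - t3 := by
    have : (t3 : ℚ) < t4 := by exact_mod_cast h34
    linarith
  have q13 : (0 : ℚ) < (t3 : ℚ) - t1 := by linarith
  have q24 : (0 : ℚ) < (t4 : ℚ) - t2 := by linarith
  have q14 : (0 : ℚ) < (t4 : ℚ) - t1 := by linarith
  have hsum : (w1 : ℝ) * ξ a1 + (w2 : ℝ) * ξ a2 + (w3 : ℝ) * ξ a3 + (w4 : ℝ) * ξ a4 = 0 := by
    rw [← hp1, ← hp2, ← hp3, ← hp4]
    simp only [w1, w2, w3, w4]
    push_cast
    ring
  have hfs : Finsupp.linearCombination ℚ ξ (Finsupp.single a1 w1 + Finsupp.single a2 w2 +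
      Finsupp.single a3 w3 + Finsupp.single a4 w4) = 0 := by
    simp only [map_add, Finsupp.linearCombination_single]
    simp only [Rat.smul_def]
    exact hsum
  have hz := (linearIndependent_iff.mp hξ) _ hfs
  have ev : ∀ a : ℕ, (if a1 = a then w1 else 0) + (if a2 = a then w2 else 0) +
      (if a3 = a then w3 else 0) + (if a4 = a then w4 else 0) = 0 := by
    intro a
    have := DFunLike.congr_fun hz a
    simpa only [Finsupp.add_apply, Finsupp.single_apply, Finsupp.coe_zero, Pi.zero_apply] using this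
  have w1neg : w1 < 0 := by
    have : 0 < ((t3 : ℚ) - t2) * ((t4 : ℚ) - t2) * ((t4 : ℚ) - t3) := by positivity
    simp only [w1]; linarith
  have w4pos : 0 < w4 := by
    simp only [w4]; positivity
  have w12pos : 0 < w1 + w2 := by
    have e : w1 + w2 = ((t4 : ℚ) - t3) * ((t2 : ℚ) - t1) * ((((t3 : ℚ) - t1)) + ((t4 : ℚ) - t2)) := by
      simp only [w1, w2]; ring
    rw [e]; positivity
  -- a3 = a4
  have e34 : a3 = a4 := by
    by_contra hne
    have hlt : a3 < a4 := lt_of_le_of_ne l34 hne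
    have := ev a4
    rw [if_neg (by omega), if_neg (by omega), if_neg (by omega), if_pos rfl] at this
    linarith
  have e12 : a1 = a2 := by
    by_contra hne
    have hlt : a1 < a2 := lt_of_le_of_ne l12 hne
    have := ev a1
    rw [if_pos rfl, if_neg (by omega), if_neg (by omega), if_neg (by omega)] at this
    linarith
  have e23 : a2 = a3 := by
    by_contra hne
    have hlt : a2 < a3 := lt_of_le_of_ne l23 hne
    have := ev a1
    rw [if_pos rfl, if_pos e12.symm, if_neg (by omega), if_neg (by omega)] at this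
    linarith
  rw [e12, e23, e34]

/-- a point on at least four planes lies only on planes of one group -/
theorem concurrent (hξ : LinearIndependent ℚ ξ) {T : Finset ℕ} (hT : 4 ≤ T.card) {p : E3}
    (hp : ∀ t ∈ T, p ∈ Pl ξ s t) {u v : ℕ} (hu : u ∈ T) (hv : v ∈ T) : u / s = v / s := by
  have hne : T.Nonempty := ⟨u, hu⟩
  set m := T.min' hne with hm
  set M := T.max' hne with hM
  have hmT : m ∈ T := T.min'_mem hne
  have hMT : M ∈ T := T.max'_mem hne
  have hcard : 1 < ((T.erase m).erase M).card := by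
    have h1 : (T.erase m).card = T.card - 1 := Finset.card_erase_of_mem hmT
    have h2 : (T.erase m).card - 1 ≤ ((T.erase m).erase M).card := Finset.pred_card_le_card_erase
    omega
  obtain ⟨a, ha, b, hb, hab⟩ := Finset.one_lt_card.mp hcard
  have key : ∀ a b : ℕ, a ∈ (T.erase m).erase M → b ∈ (T.erase m).erase M → a < b →
      m / s = M / s := by
    intro a b ha hb hab
    simp only [Finset.mem_erase] at ha hb
    have ma : m < a := lt_of_le_of_ne (T.min'_le a ha.2.2) (Ne.symm ha.2.1)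
    have bM : b < M := lt_of_le_of_ne (T.le_max' b hb.2.2) hb.1
    exact sorted_concurrent hξ ma hab bM (hp m hmT) (hp a ha.2.2) (hp b hb.2.2) (hp M hMT)
  have hmM : m / s = M / s := by
    rcases lt_or_gt_of_ne hab with h | h
    · exact key a b ha hb h
    · exact key b a hb ha h
  have h1 : m / s ≤ u / s := Nat.div_le_div_right (T.min'_le u hu)
  have h2 : u / s ≤ M / s := Nat.div_le_div_right (T.le_max' u hu)
  have h3 : m / s ≤ v / s := Nat.div_le_div_right (T.min'_le v hv)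
  have h4 : v / s ≤ M / s := Nat.div_le_div_right (T.le_max' v hv)
  omega

end Pool.Agent.Lib.MP_a8d5c3_co
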