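import Mathlib
import Pool.Agent.Lib.MP_a8d5c3_co.Config

set_option autoImplicit false

namespace Pool.Agent.Lib.MP_a8d5c3_co

open AffineSubspace

variable (ξ : ℕ → ℝ) (s : ℕ)

/-- the set of the first `s * s` planes -/
def Hset : Set (AffineSubspace ℝ E3) := {P | ∃ t < s * s, P = Pl ξ s t}

variable {ξ s}

theorem mem_lines_iff {l : AffineSubspace ℝ E3} : l ∈ planeLines (Hset ξ s) ↔
    ∃ t u : ℕ, t < s * s ∧ u < s * s ∧ t < u ∧ l = Pl ξ s t ⊓ Pl ξ s u := by
  constructor
  · rintro ⟨P, ⟨t, ht, rfl⟩, Q, ⟨u, hu, rfl⟩, hne, rfl⟩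
    have htu : t ≠ u := fun h => hne (by rw [h])
    rcases lt_or_gt_of_ne htu with h | h
    · exact ⟨t, u, ht, hu, h, rfl⟩
    · exact ⟨u, t, hu, ht, h, inf_comm _ _⟩
  · rintro ⟨t, u, ht, hu, htu, rfl⟩
    exact ⟨_, ⟨t, ht, rfl⟩, _, ⟨u, hu, rfl⟩, fun h => htu.ne (Pl_injective h), rfl⟩

theorem mem_lines_of_ne {t u : ℕ} (ht : t < s * s) (hu : u < s * s) (htu : t ≠ u) :
    Pl ξ s t ⊓ Pl ξ s u ∈ planeLines (Hset ξ s) :=
  ⟨_, ⟨t, ht, rfl⟩, _, ⟨u, hu, rfl⟩, fun h => htu (Pl_injective h), rfl⟩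

theorem cast_ne {t u : ℕ} (h : t ≠ u) : (t : ℝ) ≠ (u : ℝ) := by exact_mod_cast h

theorem isLine_line {t u : ℕ} (h : t ≠ u) : IsLine (Pl ξ s t ⊓ Pl ξ s u) := by
  refine ⟨?_, finrank_line (cast_ne h) _ _⟩
  obtain ⟨p, hp, hp'⟩ := exists_pt2 (cast_ne h) (ξ (t / s)) (ξ (u / s))
  exact ⟨p, hp, hp'⟩

/-- the pair of indices is determined by the direction of the line -/
theorem pair_of_dv {t u t' u' : ℕ} {r : ℝ} (h : dv (t : ℝ) u = r • dv (t' : ℝ) u') :
    (t = t' ∧ u = u') ∨ (t = u' ∧ u = t') := by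
  have h0 := congrFun h 0
  have h1 := congrFun h 1
  have h2 := congrFun h 2
  simp only [dv, Matrix.cons_val_zero, Matrix.cons_val_one, Matrix.cons_val, Pi.smul_apply,
    smul_eq_mul, mul_one] at h0 h1 h2
  rw [← h2] at h0 h1
  have hs : (t : ℝ) + u = t' + u' := by linarith
  have hp : (t : ℝ) * u = t' * u' := by linarith
  have hz : ((t : ℝ) - t') * ((t : ℝ) - u') = 0 := by
    have : ((t : ℝ) - t') * ((t : ℝ) - u') = t * t - t * (t' + u') + t' * u' := by ring
    rw [this, ← hs, ← hp]; ring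
  rcases mul_eq_zero.mp hz with h3 | h3
  · left
    have e1 : (t : ℝ) = t' := by linarith
    have e2 : (u : ℝ) = u' := by linarith
    exact ⟨by exact_mod_cast e1, by exact_mod_cast e2⟩
  · right
    have e1 : (t : ℝ) = u' := by linarith
    have e2 : (u : ℝ) = t' := by linarith
    exact ⟨by exact_mod_cast e1, by exact_mod_cast e2⟩

theorem dv_mem_direction {t u : ℕ} (h : t ≠ u) : dv (t : ℝ) u ∈ (Pl ξ s t ⊓ Pl ξ s u).direction :=
  (mem_direction_line (cast_ne h)).mpr ⟨1, by rw [one_smul]⟩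

theorem line_injective {t u t' u' : ℕ} (h : t ≠ u) (h' : t' ≠ u')
    (heq : Pl ξ s t ⊓ Pl ξ s u = Pl ξ s t' ⊓ Pl ξ s u') :
    (t = t' ∧ u = u') ∨ (t = u' ∧ u = t') := by
  have h1 := dv_mem_direction (ξ := ξ) (s := s) h
  rw [heq] at h1
  obtain ⟨r, hr⟩ := (mem_direction_line (cast_ne h')).mp h1
  exact pair_of_dv hr

/-- the index set of the lines -/
def pairs (s : ℕ) : Finset (Σ _ : ℕ, ℕ) := (Finset.range (s * s)).sigma (fun u => Finset.range u)

theorem card_pairs (s : ℕ) : (pairs s).card = s * s * (s * s - 1) / 2 := by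
  rw [pairs, Finset.card_sigma]
  simp only [Finset.card_range]
  exact Finset.sum_range_id (s * s)

theorem lines_eq_image : planeLines (Hset ξ s) =
    (fun x : Σ _ : ℕ, ℕ => Pl ξ s x.2 ⊓ Pl ξ s x.1) '' (pairs s : Set (Σ _ : ℕ, ℕ)) := by
  ext l
  rw [mem_lines_iff]
  simp only [Set.mem_image, Finset.mem_coe, pairs, Finset.mem_sigma, Finset.mem_range]
  constructor
  · rintro ⟨t, u, ht, hu, htu, rfl⟩
    exact ⟨⟨u, t⟩, ⟨hu, htu⟩, rfl⟩
  · rintro ⟨⟨u, t⟩, ⟨hu, htu⟩, rfl⟩
    exact ⟨t, u, lt_trans htu hu, hu, htu, rfl⟩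

theorem lines_finite : (planeLines (Hset ξ s)).Finite := by
  rw [lines_eq_image]; exact (Finset.finite_toSet _).image _

theorem ncard_lines : (planeLines (Hset ξ s)).ncard = s * s * (s * s - 1) / 2 := by
  rw [lines_eq_image, Set.InjOn.ncard_image, Set.ncard_coe_finset, card_pairs]
  rintro ⟨u, t⟩ h1 ⟨u', t'⟩ h2 heq
  simp only [Finset.mem_coe, pairs, Finset.mem_sigma, Finset.mem_range] at h1 h2
  have hlt : t < u := h1.2
  have hlt' : t' < u' := h2.2
  rcases line_injective (ξ := ξ) (s := s) hlt.ne hlt'.ne heq with ⟨h3, h4⟩ | ⟨h3, h4⟩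
  · rw [h3, h4]
  · omega

theorem joint_of_triple {t1 t2 t3 : ℕ} (h1 : t1 < s * s) (h2 : t2 < s * s) (h3 : t3 < s * s)
    (h12 : t1 ≠ t2) (h13 : t1 ≠ t3) (h23 : t2 ≠ t3) {p : E3} (hp1 : p ∈ Pl ξ s t1)
    (hp2 : p ∈ Pl ξ s t2) (hp3 : p ∈ Pl ξ s t3) : IsJoint (planeLines (Hset ξ s)) p :=
  ⟨_, mem_lines_of_ne h1 h2 h12, _, mem_lines_of_ne h1 h3 h13, _, mem_lines_of_ne h2 h3 h23,
    ⟨hp1, hp2⟩, ⟨hp1, hp3⟩, ⟨hp2, hp3⟩, _, dv_mem_direction h12, _, dv_mem_direction h13, _,
    dv_mem_direction h23, linInd3 (cast_ne h12) (cast_ne h13) (cast_ne h23)⟩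

theorem triple_of_joint {p : E3} (h : IsJoint (planeLines (Hset ξ s)) p) :
    ∃ t1 t2 t3 : ℕ, t1 < s * s ∧ t2 < s * s ∧ t3 < s * s ∧ t1 ≠ t2 ∧ t1 ≠ t3 ∧ t2 ≠ t3 ∧
      p ∈ Pl ξ s t1 ∧ p ∈ Pl ξ s t2 ∧ p ∈ Pl ξ s t3 := by
  obtain ⟨l1, hl1, l2, hl2, l3, hl3, hp1, hp2, hp3, v1, hv1, v2, hv2, v3, hv3, hind⟩ := h
  obtain ⟨t, u, ht, hu, htu, rfl⟩ := mem_lines_iff.mp hl1
  obtain ⟨t', u', ht', hu', htu', rfl⟩ := mem_lines_iff.mp hl2
  obtain ⟨r, hr⟩ := (mem_direction_line (cast_ne htu.ne)).mp hv1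
  obtain ⟨r', hr'⟩ := (mem_direction_line (cast_ne htu'.ne)).mp hv2
  have hne : ¬ (t = t' ∧ u = u') := by
    rintro ⟨rfl, rfl⟩
    have hrel : r' • v1 + (-r) • v2 = 0 := by
      rw [hr, hr', smul_smul, smul_smul, ← add_smul]
      have : r' * r + -r * r' = 0 := by ring
      rw [this, zero_smul]
    rw [Fintype.linearIndependent_iff] at hind
    have h1 := hind ![r', -r, 0] (by
      rw [Fin.sum_univ_three]
      simpa using hrel)
    have h2 := h1 1
    simp only [Matrix.cons_val_one, Matrix.cons_val_zero, neg_eq_zero] at h2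
    rw [h2, zero_smul] at hr
    have h3 := hind ![1, 0, 0] (by
      rw [Fin.sum_univ_three]
      simp [hr])
    have h4 := h3 0
    simp at h4
  by_cases h1 : t' = t
  · refine ⟨t, u, u', ht, hu, hu', htu.ne, ?_, ?_, hp1.1, hp1.2, hp2.2⟩
    · omega
    · intro h; exact hne ⟨h1.symm, h⟩
  · by_cases h2 : t' = u
    · refine ⟨t, u, u', ht, hu, hu', htu.ne, ?_, ?_, hp1.1, hp1.2, hp2.2⟩ <;> omega
    · exact ⟨t, u, t', ht, hu, ht', htu.ne, fun h => h1 h.symm, fun h => h2 h.symm,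
        hp1.1, hp1.2, hp2.1⟩

variable (ξ s)

/-- a point on all planes with index in `T` -/
noncomputable def pt (T : Finset ℕ) : E3 := Classical.epsilon (fun p : E3 => ∀ t ∈ T, p ∈ Pl ξ s t)

variable {ξ s}

theorem pt_spec {T : Finset ℕ} (hT : T.card = 3) : ∀ t ∈ T, pt ξ s T ∈ Pl ξ s t := by
  refine Classical.epsilon_spec (p := fun p : E3 => ∀ t ∈ T, p ∈ Pl ξ s t) ?_
  obtain ⟨a, b, c, hab, hac, hbc, rfl⟩ := Finset.card_eq_three.mp hT
  obtain ⟨p, h1, h2, h3⟩ := exists_pt3 (cast_ne hab) (cast_ne hac) (cast_ne hbc)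
    (ξ (a / s)) (ξ (b / s)) (ξ (c / s))
  refine ⟨p, ?_⟩
  intro t ht
  simp only [Finset.mem_insert, Finset.mem_singleton] at ht
  rcases ht with rfl | rfl | rfl
  · exact h1
  · exact h2
  · exact h3

theorem pt_unique {T : Finset ℕ} (hT : T.card = 3) {p : E3} (hp : ∀ t ∈ T, p ∈ Pl ξ s t) :
    pt ξ s T = p := by
  have hs := pt_spec (ξ := ξ) (s := s) hT
  obtain ⟨a, b, c, hab, hac, hbc, rfl⟩ := Finset.card_eq_three.mp hT
  exact unique_pt3 (cast_ne hab) (cast_ne hac) (cast_ne hbc)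
    (hs a (by simp)) (hs b (by simp)) (hs c (by simp))
    (hp a (by simp)) (hp b (by simp)) (hp c (by simp))

theorem joints_subset : {p | IsJoint (planeLines (Hset ξ s)) p} ⊆
    ((Finset.powersetCard 3 (Finset.range (s * s))).image (pt ξ s) : Finset E3) := by
  classical
  intro p hp
  obtain ⟨t1, t2, t3, h1, h2, h3, h12, h13, h23, hp1, hp2, hp3⟩ := triple_of_joint hp
  simp only [Finset.coe_image, Set.mem_image, Finset.mem_coe, Finset.mem_powersetCard]
  refine ⟨{t1, t2, t3}, ⟨?_, ?_⟩, ?_⟩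
  · intro t ht
    simp only [Finset.mem_insert, Finset.mem_singleton] at ht
    rw [Finset.mem_range]
    rcases ht with rfl | rfl | rfl <;> assumption
  · exact Finset.card_eq_three.mpr ⟨t1, t2, t3, h12, h13, h23, rfl⟩
  · apply pt_unique (Finset.card_eq_three.mpr ⟨t1, t2, t3, h12, h13, h23, rfl⟩)
    intro t ht
    simp only [Finset.mem_insert, Finset.mem_singleton] at ht
    rcases ht with rfl | rfl | rfl <;> assumption

theorem joints_finite : {p | IsJoint (planeLines (Hset ξ s)) p}.Finite :=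
  (Finset.finite_toSet _).subset joints_subset

theorem numJoints_le : numJoints (planeLines (Hset ξ s)) ≤ (s * s).choose 3 := by
  classical
  rw [numJoints]
  calc _ ≤ (((Finset.powersetCard 3 (Finset.range (s * s))).image (pt ξ s) : Finset E3) :
        Set E3).ncard := Set.ncard_le_ncard joints_subset (Finset.finite_toSet _)
    _ = ((Finset.powersetCard 3 (Finset.range (s * s))).image (pt ξ s)).card :=
        Set.ncard_coe_finset _
    _ ≤ (Finset.powersetCard 3 (Finset.range (s * s))).card := Finset.card_image_le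
    _ = _ := by rw [Finset.card_powersetCard, Finset.card_range]

/-- all indices of the set lie in one group -/
def Mono (s : ℕ) (T : Finset ℕ) : Prop := ∀ u ∈ T, ∀ v ∈ T, u / s = v / s

theorem le_numJoints (hξ : LinearIndependent ℚ ξ) (hs : 0 < s) :
    (s * s).choose 3 ≤ numJoints (planeLines (Hset ξ s)) + s ^ 4 := by
  classical
  set A := Finset.powersetCard 3 (Finset.range (s * s)) with hA
  have hcardA : A.card = (s * s).choose 3 := by rw [hA, Finset.card_powersetCard, Finset.card_range]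
  have hsplit := Finset.card_filter_add_card_filter_not (s := A) (fun T => Mono s T)
  -- monochromatic triples
  have hmono : (A.filter (fun T => Mono s T)).card ≤ s ^ 4 := by
    have hsub : A.filter (fun T => Mono s T) ⊆ (Finset.range s).biUnion
        (fun a => Finset.powersetCard 3 (Finset.Ico (a * s) (a * s + s))) := by
      intro T hT
      rw [Finset.mem_filter, hA, Finset.mem_powersetCard] at hT
      obtain ⟨⟨hsub, hc⟩, hm⟩ := hT
      obtain ⟨x, hx⟩ : T.Nonempty := Finset.card_pos.mp (by omega)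
      rw [Finset.mem_biUnion]
      refine ⟨x / s, ?_, ?_⟩
      · rw [Finset.mem_range]
        have := Finset.mem_range.mp (hsub hx)
        exact Nat.div_lt_of_lt_mul this
      · rw [Finset.mem_powersetCard]
        refine ⟨?_, hc⟩
        intro y hy
        rw [← hm y hy x hx, Finset.mem_Ico]
        have h1 := Nat.div_add_mod y s
        have h2 := Nat.mod_lt y hs
        have h3 : y / s * s = s * (y / s) := mul_comm _ _
        omega
    calc _ ≤ _ := Finset.card_le_card hsub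
      _ ≤ _ := Finset.card_biUnion_le
      _ ≤ ∑ _a ∈ Finset.range s, s ^ 3 := by
          apply Finset.sum_le_sum
          intro a _
          rw [Finset.card_powersetCard, Nat.card_Ico]
          have : a * s + s - a * s = s := by omega
          rw [this]
          exact Nat.choose_le_pow s 3
      _ = s ^ 4 := by
          rw [Finset.sum_const, Finset.card_range, smul_eq_mul]; ring
  have hnot : (A.filter (fun T => ¬ Mono s T)).card ≤ numJoints (planeLines (Hset ξ s)) := by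
    rw [numJoints, ← Set.ncard_coe_finset]
    apply Set.ncard_le_ncard_of_injOn (pt ξ s) _ _ joints_finite
    · intro T hT
      rw [Finset.mem_coe, Finset.mem_filter, hA, Finset.mem_powersetCard] at hT
      obtain ⟨⟨hsub, hc⟩, hm⟩ := hT
      have hsp := pt_spec (ξ := ξ) (s := s) hc
      obtain ⟨a, b, c, hab, hac, hbc, rfl⟩ := Finset.card_eq_three.mp hc
      exact joint_of_triple (Finset.mem_range.mp (hsub (by simp)))
        (Finset.mem_range.mp (hsub (by simp))) (Finset.mem_range.mp (hsub (by simp)))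
        hab hac hbc (hsp a (by simp)) (hsp b (by simp)) (hsp c (by simp))
    · intro T hT T' hT' heq
      rw [Finset.mem_coe, Finset.mem_filter, hA, Finset.mem_powersetCard] at hT hT'
      obtain ⟨⟨hsub, hc⟩, hm⟩ := hT
      obtain ⟨⟨hsub', hc'⟩, hm'⟩ := hT'
      by_contra hne
      apply hm
      have hcard : 4 ≤ (T ∪ T').card := by
        by_contra hlt
        have h1 : T ⊆ T ∪ T' := Finset.subset_union_left
        have h2 : T' ⊆ T ∪ T' := Finset.subset_union_right
        have h3 := Finset.card_le_card h1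
        have e1 : T = T ∪ T' := Finset.eq_of_subset_of_card_le h1 (by omega)
        have e2 : T' = T ∪ T' := Finset.eq_of_subset_of_card_le h2 (by omega)
        exact hne (e1.trans e2.symm)
      have hp : ∀ t ∈ T ∪ T', pt ξ s T ∈ Pl ξ s t := by
        intro t ht
        rcases Finset.mem_union.mp ht with h | h
        · exact pt_spec hc t h
        · rw [heq]; exact pt_spec hc' t h
      intro u hu v hv
      exact concurrent hξ hcard hp (Finset.mem_union_left _ hu) (Finset.mem_union_left _ hv)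
  omega

end Pool.Agent.Lib.MP_a8d5c3_co
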