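import Mathlib
import Pool.Agent.Lib.MP_a8d5c3_co.Joints

set_option autoImplicit false

namespace Pool.Agent.Lib.MP_a8d5c3_co

open AffineSubspace

theorem isLine_of_planes {P Q : AffineSubspace ℝ E3} (hP : IsPlane P) (hQ : IsPlane Q)
    (hnp : ¬ P.Parallel Q) : IsLine (P ⊓ Q) := by
  have hd : P.direction ≠ Q.direction := by
    intro h
    apply hnp
    rw [AffineSubspace.parallel_iff_direction_eq_and_eq_bot_iff_eq_bot]
    refine ⟨h, ?_⟩
    have h1 : P ≠ ⊥ := (AffineSubspace.nonempty_iff_ne_bot P).mp hP.1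
    have h2 : Q ≠ ⊥ := (AffineSubspace.nonempty_iff_ne_bot Q).mp hQ.1
    exact ⟨fun h => absurd h h1, fun h => absurd h h2⟩
  have h3 : Module.finrank ℝ E3 = 3 := by
    rw [Module.finrank_fintype_fun_eq_card, Fintype.card_fin]
  obtain ⟨a, ha⟩ : ∃ a : ℕ, Module.finrank ℝ (P.direction ⊔ Q.direction : Submodule ℝ E3) = a :=
    ⟨_, rfl⟩
  obtain ⟨b, hb⟩ : ∃ b : ℕ, Module.finrank ℝ (P.direction ⊓ Q.direction : Submodule ℝ E3) = b :=
    ⟨_, rfl⟩
  have hsum : a + b = 2 + 2 := by
    have hsum := Submodule.finrank_sup_add_finrank_inf_eq P.direction Q.direction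
    rw [hP.2, hQ.2] at hsum
    rw [← ha, ← hb]
    exact hsum
  have hle : a ≤ 3 := by
    rw [← h3, ← ha]; exact Submodule.finrank_le _
  have hge : 2 < a := by
    by_contra hlt
    have hlt' : a ≤ 2 := by omega
    have e1 : P.direction = P.direction ⊔ Q.direction :=
      Submodule.eq_of_le_of_finrank_le le_sup_left (by rw [hP.2]; exact ha.trans_le hlt')
    have e2 : Q.direction = P.direction ⊔ Q.direction :=
      Submodule.eq_of_le_of_finrank_le le_sup_right (by rw [hQ.2]; exact ha.trans_le hlt')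
    exact hd (e1.trans e2.symm)
  have ha3 : a = 3 := by omega
  have hb1 : b = 1 := by omega
  have htop : P.direction ⊔ Q.direction = ⊤ := by
    apply Submodule.eq_top_of_finrank_eq
    exact ha.trans (ha3.trans h3.symm)
  obtain ⟨p, hp, hp'⟩ :=
    AffineSubspace.inter_nonempty_of_nonempty_of_sup_direction_eq_top hP.1 hQ.1 htop
  refine ⟨⟨p, hp, hp'⟩, ?_⟩
  rw [AffineSubspace.direction_inf_of_mem hp hp']
  exact hb.trans hb1

theorem Generic.ncard_planeLines {H : Set (AffineSubspace ℝ E3)} (hH : Generic H) :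
    (planeLines H).Finite ∧ (planeLines H).ncard = H.ncard.choose 2 := by
  classical
  have hfin := hH.finite
  set F := hfin.toFinset with hF
  have hmem : ∀ P, P ∈ F ↔ P ∈ H := fun P => hfin.mem_toFinset
  have hcard : H.ncard = F.card := Set.ncard_eq_toFinset_card H hfin
  have himg : planeLines H = (fun T : Finset (AffineSubspace ℝ E3) => T.inf id) ''
      (Finset.powersetCard 2 F : Set (Finset (AffineSubspace ℝ E3))) := by
    ext l
    simp only [planeLines, Set.mem_image, Finset.mem_coe, Finset.mem_powersetCard]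
    constructor
    · rintro ⟨P, hP, Q, hQ, hne, rfl⟩
      refine ⟨{P, Q}, ⟨?_, Finset.card_pair hne⟩, ?_⟩
      · intro R hR
        simp only [Finset.mem_insert, Finset.mem_singleton] at hR
        rcases hR with rfl | rfl
        · exact (hmem _).mpr hP
        · exact (hmem _).mpr hQ
      · simp
    · rintro ⟨T, ⟨hT, hc⟩, rfl⟩
      obtain ⟨P, Q, hne, rfl⟩ := Finset.card_eq_two.mp hc
      refine ⟨P, (hmem _).mp (hT (by simp)), Q, (hmem _).mp (hT (by simp)), hne, ?_⟩
      simp
  refine ⟨by rw [himg]; exact (Finset.finite_toSet _).image _, ?_⟩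
  rw [himg, Set.InjOn.ncard_image, Set.ncard_coe_finset, Finset.card_powersetCard, hcard]
  intro T hT T' hT' heq
  simp only [Finset.mem_coe, Finset.mem_powersetCard] at hT hT'
  by_contra hne
  obtain ⟨P, Q, hPQ, rfl⟩ := Finset.card_eq_two.mp hT.2
  have hPH : P ∈ H := (hmem _).mp (hT.1 (by simp))
  have hQH : Q ∈ H := (hmem _).mp (hT.1 (by simp))
  have hex : ∃ R ∈ T', R ∉ ({P, Q} : Finset (AffineSubspace ℝ E3)) := by
    by_contra hno
    push Not at hno
    have hsub : T' ⊆ ({P, Q} : Finset (AffineSubspace ℝ E3)) := fun R hR => hno R hR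
    exact hne (Finset.eq_of_subset_of_card_le hsub (by rw [hT.2, hT'.2])).symm
  obtain ⟨R, hR, hRn⟩ := hex
  simp only [Finset.mem_insert, Finset.mem_singleton, not_or] at hRn
  have hRH : R ∈ H := (hmem _).mp (hT'.1 hR)
  have hline := isLine_of_planes (hH.plane P hPH) (hH.plane Q hQH) (hH.not_parallel P hPH Q hQH hPQ)
  refine hH.no_three P hPH Q hQH R hRH hPQ (Ne.symm hRn.1) (Ne.symm hRn.2)
    ⟨P ⊓ Q, hline, inf_le_left, inf_le_right, ?_⟩
  have h1 : P ⊓ Q = T'.inf id := by
    refine Eq.trans ?_ heq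
    simp
  rw [h1]
  exact Finset.inf_le hR

variable {ξ : ℕ → ℝ} {s : ℕ}

theorem coplanar (hξ : LinearIndependent ℚ ξ) {P : AffineSubspace ℝ E3} (hP : IsPlane P)
    (hPn : P ∉ Hset ξ s) {t u t' u' : ℕ} (ht : t < s * s) (hu : u < s * s) (ht' : t' < s * s)
    (hu' : u' < s * s) (hg : t / s ≠ u / s) (hg' : t' / s ≠ u' / s)
    (hl : Pl ξ s t ⊓ Pl ξ s u ≤ P) (hl' : Pl ξ s t' ⊓ Pl ξ s u' ≤ P) :
    Pl ξ s t ⊓ Pl ξ s u = Pl ξ s t' ⊓ Pl ξ s u' := by
  classical
  by_contra hne
  have htu : t ≠ u := fun h => hg (by rw [h])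
  have htu' : t' ≠ u' := fun h => hg' (by rw [h])
  set d := dv (t : ℝ) u with hd
  set d' := dv (t' : ℝ) u' with hd'
  have hdl := dv_mem_direction (ξ := ξ) (s := s) htu
  have hdl' := dv_mem_direction (ξ := ξ) (s := s) htu'
  have hdP : d ∈ P.direction := AffineSubspace.direction_le hl hdl
  have hdP' : d' ∈ P.direction := AffineSubspace.direction_le hl' hdl'
  -- independence
  have hind : LinearIndependent ℝ ![d, d'] := by
    rw [LinearIndependent.pair_iff]
    intro a b hab
    have ha : a = 0 := by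
      by_contra ha
      have : d = (-(b / a)) • d' := by
        have h1 : a⁻¹ • (a • d + b • d') = 0 := by rw [hab, smul_zero]
        rw [smul_add, smul_smul, smul_smul, inv_mul_cancel₀ ha, one_smul] at h1
        rw [neg_smul, div_eq_inv_mul]
        exact eq_neg_of_add_eq_zero_left h1
      rcases pair_of_dv this with ⟨h1, h2⟩ | ⟨h1, h2⟩
      · exact hne (by rw [h1, h2])
      · exact hne (by rw [h1, h2, inf_comm])
    refine ⟨ha, ?_⟩
    rw [ha, zero_smul, zero_add] at hab
    rcases smul_eq_zero.mp hab with h | h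
    · exact h
    · exact absurd h (dv_ne_zero _ _)
  have hspan : ∀ D : Submodule ℝ E3, Module.finrank ℝ D = 2 → d ∈ D → d' ∈ D →
      Submodule.span ℝ {d, d'} = D := by
    intro D hD h1 h2
    apply Submodule.eq_of_le_of_finrank_eq
    · rw [Submodule.span_le]
      intro x hx
      rcases hx with rfl | hx
      · exact h1
      · rw [Set.mem_singleton_iff.mp hx]; exact h2
    · have hc := finrank_span_eq_card hind
      rw [Fintype.card_fin] at hc
      have hr : Set.range ![d, d'] = {d, d'} := by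
        ext x
        simp only [Matrix.range_cons, Matrix.range_empty, Set.union_empty, Set.singleton_union]
      rw [hr] at hc
      exact hc.trans hD.symm
  have hspanP := hspan _ hP.2 hdP hdP'
  -- common point
  obtain ⟨p, hp⟩ := (isLine_line (ξ := ξ) (s := s) htu).1
  obtain ⟨p', hp'⟩ := (isLine_line (ξ := ξ) (s := s) htu').1
  have hdiff : p' -ᵥ p ∈ P.direction := AffineSubspace.vsub_mem_direction (hl' hp') (hl hp)
  rw [← hspanP, Submodule.mem_span_pair] at hdiff
  obtain ⟨a, b, hab⟩ := hdiff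
  set q := a • d +ᵥ p with hq
  have hq1 : q ∈ Pl ξ s t ⊓ Pl ξ s u :=
    AffineSubspace.vadd_mem_of_mem_direction (Submodule.smul_mem _ _ hdl) hp
  have hq2 : q ∈ Pl ξ s t' ⊓ Pl ξ s u' := by
    have : q = (-b) • d' +ᵥ p' := by
      rw [vsub_eq_sub] at hab
      rw [hq, vadd_eq_add, vadd_eq_add, neg_smul]
      have : p' = a • d + b • d' + p := by rw [hab]; abel
      rw [this]; abel
    rw [this]
    exact AffineSubspace.vadd_mem_of_mem_direction (Submodule.smul_mem _ _ hdl') hp'
  by_cases hshare : t' = t ∨ t' = u ∨ u' = t ∨ u' = u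
  · -- a common index w
    have hw : ∃ w, w < s * s ∧ d ∈ (Pl ξ s w).direction ∧ d' ∈ (Pl ξ s w).direction ∧
        q ∈ Pl ξ s w := by
      have L1 : d ∈ (Pl ξ s t).direction := AffineSubspace.direction_le inf_le_left hdl
      have L2 : d ∈ (Pl ξ s u).direction := AffineSubspace.direction_le inf_le_right hdl
      have L3 : d' ∈ (Pl ξ s t').direction := AffineSubspace.direction_le inf_le_left hdl'
      have L4 : d' ∈ (Pl ξ s u').direction := AffineSubspace.direction_le inf_le_right hdl'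
      rcases hshare with h | h | h | h
      · exact ⟨t, ht, L1, h ▸ L3, hq1.1⟩
      · exact ⟨u, hu, L2, h ▸ L3, hq1.2⟩
      · exact ⟨t, ht, L1, h ▸ L4, hq1.1⟩
      · exact ⟨u, hu, L2, h ▸ L4, hq1.2⟩
    obtain ⟨w, hw, h1, h2, h3⟩ := hw
    apply hPn
    refine ⟨w, hw, ?_⟩
    have hspanw := hspan _ (finrank_direction_pl (w : ℝ) (ξ (w / s))) h1 h2
    apply AffineSubspace.ext_of_direction_eq (hspanP.symm.trans hspanw)
    exact ⟨q, hl hq1, h3⟩
  · push Not at hshare
    obtain ⟨n1, n2, n3, n4⟩ := hshare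
    apply hg
    have hcard : 4 ≤ ({t, u, t', u'} : Finset ℕ).card := by
      rw [Finset.card_insert_of_notMem, Finset.card_insert_of_notMem,
        Finset.card_insert_of_notMem, Finset.card_singleton]
      · simpa using htu'
      · simp only [Finset.mem_insert, Finset.mem_singleton, not_or]
        exact ⟨fun h => n2 h.symm, fun h => n4 h.symm⟩
      · simp only [Finset.mem_insert, Finset.mem_singleton, not_or]
        exact ⟨htu, fun h => n1 h.symm, fun h => n3 h.symm⟩
    refine concurrent hξ hcard (p := q) ?_ (by simp) (by simp)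
    intro x hx
    simp only [Finset.mem_insert, Finset.mem_singleton] at hx
    rcases hx with rfl | rfl | rfl | rfl
    · exact hq1.1
    · exact hq1.2
    · exact hq2.1
    · exact hq2.2

/-- the indices of those planes of the configuration that belong to `H` -/
noncomputable def shared (ξ : ℕ → ℝ) (s : ℕ) (H : Set (AffineSubspace ℝ E3)) : Finset ℕ := by
  classical exact (Finset.range (s * s)).filter (fun t => Pl ξ s t ∈ H)

theorem mem_shared {H : Set (AffineSubspace ℝ E3)} {t : ℕ} :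
    t ∈ shared ξ s H ↔ t < s * s ∧ Pl ξ s t ∈ H := by
  classical
  rw [shared, Finset.mem_filter, Finset.mem_range]

theorem card_shared {H : Set (AffineSubspace ℝ E3)} (hH : Generic H) :
    (shared ξ s H).card ≤ 3 * s := by
  classical
  have h1 : (shared ξ s H).card ≤ ∑ a ∈ Finset.range s,
      ((shared ξ s H).filter (fun t => t / s = a)).card := by
    rw [← Finset.card_eq_sum_card_fiberwise]
    intro t ht
    rw [Finset.mem_coe, mem_shared] at ht
    rw [Finset.mem_coe, Finset.mem_range]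
    exact Nat.div_lt_of_lt_mul ht.1
  have h2 : ∀ a ∈ Finset.range s, ((shared ξ s H).filter (fun t => t / s = a)).card ≤ 3 := by
    intro a _
    by_contra hlt
    push Not at hlt
    set T := (shared ξ s H).filter (fun t => t / s = a) with hT
    have h4 : 4 ≤ T.card := hlt
    let f := Finset.orderEmbOfCardLe T h4
    have hf : ∀ i, f i ∈ T := fun i => Finset.orderEmbOfCardLe_mem T h4 i
    have hf' : ∀ i, Pl ξ s (f i) ∈ H := fun i => by
      have := hf i
      rw [hT, Finset.mem_filter, mem_shared] at this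
      exact this.1.2
    have hpt : ∀ i, (![ξ a, 0, 0] : E3) ∈ Pl ξ s (f i) := fun i => by
      have := hf i
      rw [hT, Finset.mem_filter] at this
      rw [← this.2]
      exact pt_mem_Pl _
    have hne : ∀ i j : Fin 4, i ≠ j → Pl ξ s (f i) ≠ Pl ξ s (f j) := fun i j hij h =>
      hij (f.injective (Pl_injective h))
    exact hH.no_four _ (hf' 0) _ (hf' 1) _ (hf' 2) _ (hf' 3) (hne 0 1 (by decide))
      (hne 0 2 (by decide)) (hne 0 3 (by decide)) (hne 1 2 (by decide)) (hne 1 3 (by decide))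
      (hne 2 3 (by decide)) ⟨_, hpt 0, hpt 1, hpt 2, hpt 3⟩
  calc _ ≤ _ := h1
    _ ≤ ∑ _a ∈ Finset.range s, 3 := Finset.sum_le_sum h2
    _ = 3 * s := by rw [Finset.sum_const, Finset.card_range, smul_eq_mul, mul_comm]

theorem ncard_common (hξ : LinearIndependent ℚ ξ) {H : Set (AffineSubspace ℝ E3)}
    (hH : Generic H) : (planeLines (Hset ξ s) ∩ planeLines H).ncard ≤
      s ^ 3 + 9 * s ^ 2 + H.ncard := by
  classical
  let f1 : ℕ × ℕ × ℕ → AffineSubspace ℝ E3 := fun x =>
    Pl ξ s (s * x.1 + x.2.1) ⊓ Pl ξ s (s * x.1 + x.2.2)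
  let C1 : Finset (AffineSubspace ℝ E3) :=
    (Finset.range s ×ˢ Finset.range s ×ˢ Finset.range s).image f1
  let f2 : ℕ × ℕ → AffineSubspace ℝ E3 := fun x => Pl ξ s x.1 ⊓ Pl ξ s x.2
  let C2 : Finset (AffineSubspace ℝ E3) := (shared ξ s H ×ˢ shared ξ s H).image f2
  let C3 : Set (AffineSubspace ℝ E3) := {l | l ∈ planeLines (Hset ξ s) ∧
    (∃ t u : ℕ, t < s * s ∧ u < s * s ∧ t / s ≠ u / s ∧ l = Pl ξ s t ⊓ Pl ξ s u) ∧
    ∃ P ∈ H, P ∉ Hset ξ s ∧ l ≤ P}
  have c1 : C1.card ≤ s ^ 3 := by
    refine Finset.card_image_le.trans ?_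
    rw [Finset.card_product, Finset.card_product, Finset.card_range]
    exact le_of_eq (by ring)
  have c2 : C2.card ≤ 9 * s ^ 2 := by
    refine Finset.card_image_le.trans ?_
    rw [Finset.card_product]
    have h := card_shared (ξ := ξ) (s := s) hH
    calc _ ≤ (3 * s) * (3 * s) := Nat.mul_le_mul h h
      _ = 9 * s ^ 2 := by ring
  have c3fin : C3.Finite := lines_finite.subset (fun l hl => hl.1)
  have c3 : C3.ncard ≤ H.ncard := by
    have hch : ∀ l : AffineSubspace ℝ E3, ∃ P : AffineSubspace ℝ E3,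
        l ∈ C3 → P ∈ H ∧ P ∉ Hset ξ s ∧ l ≤ P := by
      intro l
      by_cases hl : l ∈ C3
      · obtain ⟨P, h1, h2, h3⟩ := hl.2.2
        exact ⟨P, fun _ => ⟨h1, h2, h3⟩⟩
      · exact ⟨⊤, fun h => absurd h hl⟩
    choose g hg using hch
    refine Set.ncard_le_ncard_of_injOn g (fun l hl => (hg l hl).1) ?_ hH.finite
    intro l hl l' hl' heq
    obtain ⟨h1, h2, h3⟩ := hg l hl
    obtain ⟨h1', h2', h3'⟩ := hg l' hl'
    obtain ⟨t, u, ht, hu, htu, rfl⟩ := hl.2.1
    obtain ⟨t', u', ht', hu', htu', rfl⟩ := hl'.2.1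
    rw [← heq] at h3'
    exact coplanar hξ (hH.plane _ h1) h2 ht hu ht' hu' htu htu' h3 h3'
  have hsub : planeLines (Hset ξ s) ∩ planeLines H ⊆ (C1 : Set (AffineSubspace ℝ E3)) ∪
      ((C2 : Set (AffineSubspace ℝ E3)) ∪ C3) := by
    rintro l ⟨hl, P, hP, Q, hQ, hPQ, hlPQ⟩
    obtain ⟨t, u, ht, hu, htu, hltu⟩ := mem_lines_iff.mp hl
    by_cases hg : t / s = u / s
    · left
      rw [Finset.mem_coe, Finset.mem_image]
      have hs : 0 < s := by
        rcases Nat.eq_zero_or_pos s with h | h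
        · rw [h] at ht; omega
        · exact h
      refine ⟨(t / s, t % s, u % s), ?_, ?_⟩
      · simp only [Finset.mem_product, Finset.mem_range]
        exact ⟨Nat.div_lt_of_lt_mul ht, Nat.mod_lt _ hs, Nat.mod_lt _ hs⟩
      · simp only [f1]
        rw [Nat.div_add_mod, hg, Nat.div_add_mod, hltu]
    · right
      by_cases hPn : P ∈ Hset ξ s
      · by_cases hQn : Q ∈ Hset ξ s
        · left
          obtain ⟨a, ha, rfl⟩ := hPn
          obtain ⟨b, hb, rfl⟩ := hQn
          rw [Finset.mem_coe, Finset.mem_image]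
          refine ⟨(a, b), ?_, hlPQ.symm⟩
          rw [Finset.mem_product]
          exact ⟨mem_shared.mpr ⟨ha, hP⟩, mem_shared.mpr ⟨hb, hQ⟩⟩
        · right
          exact ⟨hl, ⟨t, u, ht, hu, hg, hltu⟩, Q, hQ, hQn, by rw [hlPQ]; exact inf_le_right⟩
      · right
        exact ⟨hl, ⟨t, u, ht, hu, hg, hltu⟩, P, hP, hPn, by rw [hlPQ]; exact inf_le_left⟩
  have hfin : ((C1 : Set (AffineSubspace ℝ E3)) ∪
      ((C2 : Set (AffineSubspace ℝ E3)) ∪ C3)).Finite :=
    (Finset.finite_toSet _).union ((Finset.finite_toSet _).union c3fin)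
  calc _ ≤ _ := Set.ncard_le_ncard hsub hfin
    _ ≤ _ := Set.ncard_union_le _ _
    _ ≤ (C1 : Set (AffineSubspace ℝ E3)).ncard +
        ((C2 : Set (AffineSubspace ℝ E3)).ncard + C3.ncard) :=
        Nat.add_le_add_left (Set.ncard_union_le _ _) _
    _ ≤ s ^ 3 + (9 * s ^ 2 + H.ncard) := by
        rw [Set.ncard_coe_finset, Set.ncard_coe_finset]
        exact Nat.add_le_add c1 (Nat.add_le_add c2 c3)
    _ = _ := by ring

theorem symmDiff_bound (hξ : LinearIndependent ℚ ξ) {H : Set (AffineSubspace ℝ E3)}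
    (hH : Generic H) : (planeLines (Hset ξ s)).ncard ≤
      (symmDiff (planeLines (Hset ξ s)) (planeLines H)).ncard + (2 * s ^ 3 + 18 * s ^ 2 + 3) := by
  set A := planeLines (Hset ξ s) with hA
  set B := planeLines H with hB
  have hAfin : A.Finite := lines_finite
  have hBfin : B.Finite := hH.ncard_planeLines.1
  have hBcard : B.ncard = H.ncard.choose 2 := hH.ncard_planeLines.2
  have h1 := Set.ncard_inter_add_ncard_sdiff_eq_ncard A B hAfin
  have h2 := Set.ncard_inter_add_ncard_sdiff_eq_ncard B A hBfin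
  rw [Set.inter_comm] at h2
  have h3 : (symmDiff A B).ncard = (A \ B).ncard + (B \ A).ncard := by
    rw [Set.symmDiff_def]
    exact Set.ncard_union_eq (disjoint_sdiff_sdiff) (hAfin.sdiff) (hBfin.sdiff)
  have h4 := ncard_common (s := s) hξ hH
  rw [← hA, ← hB] at h4
  have h5 : 2 * H.ncard ≤ H.ncard.choose 2 + 3 := by
    generalize H.ncard = h
    have e : h.choose 2 * 2 = h * (h - 1) := by
      rw [Nat.choose_two_right, Nat.div_mul_cancel (Nat.even_mul_pred_self h).two_dvd]
    rcases Nat.lt_or_ge h 6 with h6 | h6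
    · interval_cases h <;> simp [Nat.choose]
    · obtain ⟨k, rfl⟩ := Nat.exists_eq_add_of_le h6
      have e2 : 6 + k - 1 = 5 + k := by omega
      rw [e2] at e
      nlinarith
  omega

end Pool.Agent.Lib.MP_a8d5c3_co
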